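import Pool.Agent.H242.GX.Stm6

/-!
GU-EVN (project GX of helper242): change of the parameter on the tangent lines (helper42).
-/

set_option autoImplicit false

open Set Filter Topology
open scoped ContDiff

namespace Pool.Agent.H42.GU

open Pool.Agent.H242.GX

theorem gu_EVN (hMOD : S_MOD) : S_EVN := by
  intro X Z hXZ κ hκ
  obtain ⟨X', Z', hW, ⟨δ, hδ, hX'⟩, h1, h2, h3, -⟩ := hMOD X Z hXZ κ hκ
  refine ⟨X', Z', hW, fun H hH θ => ?_, h1, h2, h3⟩
  obtain ⟨r, hr, hinv⟩ := hH θ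
  have hk0 : 0 < |κ θ| + 1 := by positivity
  refine ⟨min δ (min (r / 2) (1 / (|κ θ| + 1))),
    lt_min hδ (lt_min (by linarith) (by positivity)), fun τ hτ => ?_⟩
  have hτδ : |τ| < δ := hτ.trans_le (min_le_left _ _)
  have hτr : |τ| < r / 2 := hτ.trans_le ((min_le_right _ _).trans (min_le_left _ _))
  have hτk : |τ| < 1 / (|κ θ| + 1) := hτ.trans_le ((min_le_right _ _).trans (min_le_right _ _))
  have hkt : |κ θ * τ| < 1 := by
    rw [abs_mul]
    rw [lt_div_iff₀ hk0] at hτk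
    nlinarith [abs_nonneg τ, abs_nonneg (κ θ)]
  obtain ⟨hlo, hhi⟩ := abs_lt.1 hkt
  have hd1 : 0 < 1 - κ θ * τ / 2 := by linarith
  have hd2 : 0 < 1 + κ θ * τ / 2 := by linarith
  obtain ⟨-, e1⟩ := hX' θ τ hτδ
  obtain ⟨-, e2⟩ := hX' θ (-τ) (by rwa [abs_neg])
  have ht : |τ / (1 - κ θ * τ / 2)| < r := by
    rw [abs_div, abs_of_pos hd1, div_lt_iff₀ hd1]
    nlinarith [abs_nonneg τ]
  obtain ⟨hpos, heq⟩ := hinv _ ht
  have hs : -(τ / (1 - κ θ * τ / 2)) / (1 + κ θ * (τ / (1 - κ θ * τ / 2))) =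
      -τ / (1 - κ θ * (-τ) / 2) := by
    obtain ⟨D, hD⟩ : ∃ D : ℝ, D = 1 - κ θ * τ / 2 := ⟨_, rfl⟩
    have hD0 : D ≠ 0 := by
      rw [hD]
      exact hd1.ne'
    have e3 : 1 + κ θ * (τ / D) = (1 + κ θ * τ / 2) / D := by
      rw [eq_div_iff hD0]
      have e5 : (1 + κ θ * (τ / D)) * D = D + κ θ * τ * (D / D) := by ring
      rw [e5, div_self hD0, hD]
      ring
    have e4 : 1 - κ θ * (-τ) / 2 = 1 + κ θ * τ / 2 := by ring
    rw [← hD, e3, e4, ← neg_div, div_div_div_cancel_right₀ hD0]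
  rw [hs] at heq
  unfold Pool.Agent.H242.GX.Odd
  rw [e1, e2, heq]
  exact sub_self _

end Pool.Agent.H42.GU
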